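import Pool.Agent.Helper98.PS.Spec

set_option autoImplicit false

namespace Pool.Agent.Helper50.PS

open Pool.Agent.Helper75.PM (LF PMin Kp cm)
open Pool.Agent.Helper98.PS

theorem comm_closure {G : Type} [Group G] (X : Set G) (h : ∀ a ∈ X, ∀ b ∈ X, a * b = b * a) :
    Abel (Subgroup.closure X) := by
  have h1 : Subgroup.closure X ≤ Subgroup.centralizer X := by
    rw [Subgroup.closure_le]
    intro a ha
    rw [SetLike.mem_coe, Subgroup.mem_centralizer_iff]
    intro b hb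
    exact h b hb a ha
  have h2 : Subgroup.closure X ≤ Subgroup.centralizer (Subgroup.closure X : Set G) := by
    rw [Subgroup.closure_le]
    intro a ha
    rw [SetLike.mem_coe, Subgroup.mem_centralizer_iff]
    intro b hb
    have := (Subgroup.mem_centralizer_iff.mp (h1 hb)) a ha
    exact this.symm
  intro a ha b hb
  have := (Subgroup.mem_centralizer_iff.mp (h2 hb)) a ha
  exact this

theorem e1 (hDIV : S_DIV) (hCOM : S_COM) (hCMN : S_CMN) : S_E1 := by
  intro p K _ T x hG hNo M hM hMT hch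
  obtain ⟨hEM, hEn⟩ := hCMN K M x hM
  obtain ⟨D, hDE, hDi, hDab, hDd, _, m, hm, hDm⟩ := hDIV K (cm M x) hG.lf hch
  -- the family of divisible abelian subgroups
  set X : Set K := {a | ∃ A : Subgroup K, A ≤ M ∧ Abel A ∧ Divb A ∧ Nrm M A ∧ a ∈ A} with hX
  have hXc : ∀ a ∈ X, ∀ b ∈ X, a * b = b * a := by
    rintro a ⟨A, hA1, hA2, hA3, hA4, ha⟩ b ⟨B, hB1, hB2, hB3, hB4, hb⟩
    exact hCOM K A B (fun a _ => Pool.Agent.Helper75.PM.tors hG.lf a) hA2 hB2 hB3
      (fun t ht e he => hA4 t (hB1 ht) e he) (fun t ht e he => hB4 t (hA1 ht) e he) a ha b hb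
  have hXn : ∀ k : K, ∀ a ∈ X, k * a * k⁻¹ ∈ X := by
    rintro k a ⟨A, hA1, hA2, hA3, hA4, ha⟩
    refine ⟨A.map (MulAut.conj k).toMonoidHom, ?_, ?_, ?_, ?_, ?_⟩
    · rintro _ ⟨y, hy, rfl⟩
      exact hM.conj_mem y (hA1 hy) k
    · rintro _ ⟨y, hy, rfl⟩ _ ⟨z, hz, rfl⟩
      rw [← map_mul, ← map_mul, hA2 y hy z hz]
    · rintro _ ⟨y, hy, rfl⟩ n hn
      obtain ⟨z, hz, hzy⟩ := hA3 y hy n hn
      exact ⟨(MulAut.conj k).toMonoidHom z, ⟨z, hz, rfl⟩, by rw [← map_pow, hzy]⟩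
    · rintro t ht _ ⟨y, hy, rfl⟩
      refine ⟨(k⁻¹ * t * k) * y * (k⁻¹ * t * k)⁻¹, hA4 _ ?_ y hy, ?_⟩
      · have := hM.conj_mem t ht k⁻¹
        rwa [inv_inv] at this
      · simp only [MulEquiv.coe_toMonoidHom, MulAut.conj_apply]
        group
    · exact ⟨a, ha, rfl⟩
  have hN : (Subgroup.closure X).Normal := by
    refine ⟨fun n hn k => ?_⟩
    induction hn using Subgroup.closure_induction with
    | mem a ha => exact Subgroup.subset_closure (hXn k a ha)
    | one => simp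
    | mul a b _ _ iha ihb =>
      have : k * (a * b) * k⁻¹ = (k * a * k⁻¹) * (k * b * k⁻¹) := by group
      rw [this]
      exact mul_mem iha ihb
    | inv a _ iha =>
      have : k * a⁻¹ * k⁻¹ = (k * a * k⁻¹)⁻¹ := by group
      rw [this]
      exact inv_mem iha
  have hXM : Subgroup.closure X ≤ M := by
    rw [Subgroup.closure_le]
    rintro a ⟨A, hA1, _, _, _, ha⟩
    exact hA1 ha
  have hbot := hNo (Subgroup.closure X) hN (hXM.trans hMT) (comm_closure X hXc)
  have hD0 : D = ⊥ := by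
    rw [eq_bot_iff, ← hbot]
    intro a ha
    apply Subgroup.subset_closure
    refine ⟨D, hDE.trans hEM, hDab, hDd, ?_, ha⟩
    intro t ht e he
    obtain ⟨e', he', hee⟩ := (hDm e).mp he
    rw [hDm]
    exact ⟨t * e' * t⁻¹, hEn t ht e' he', by rw [conj_pow, hee]⟩
  rw [hD0, Subgroup.relIndex_bot_left] at hDi
  exact Nat.finite_of_card_ne_zero hDi

end Pool.Agent.Helper50.PS
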